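import Pool.Agent.H75.RM.Main

universe u

namespace Pool.Agent.Results.MP_3728d2_lc.HLEquivACA

open Pool.Agent.H75.RM

/-- Over `RCA₀`, for every (standard) `d ≥ 1`, the strong tree version `HL_d` of the
Halpern-Läuchli theorem for `d` trees is equivalent to arithmetical comprehension. In particular
`RCA₀ + HL_d` proves `HL_{d+1}` for every `d ≥ 1`. -/
theorem result (full : Bool) (d : ℕ) (hd : 1 ≤ d) (M : Type u) [PAminus M] (S : Set (Set M))
    (h : RCA0 M S) : HL M S full d ↔ ArithmeticalComprehension M S := by
  obtain ⟨e, rfl⟩ := Nat.exists_eq_add_of_le' hd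
  exact hl_iff_ac full e M S h

end Pool.Agent.Results.MP_3728d2_lc.HLEquivACA
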